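import Pool.Agent.H509.BT.Stm3

/-!
# Project BT: the symbols are additive in the character
-/

set_option autoImplicit false
set_option linter.unusedSectionVars false
set_option linter.deprecated false

open NumberField IsDedekindDomain Filter Topology Module

noncomputable section

namespace Pool.Agent.H297.BT

open Pool.Agent.BT9
open Pool.Agent.Q92.AR (Dv prin nmD nu up sD Unramified prin_mul prin_one prin_inv)
open Pool.Agent.K3h30.RS (RubinData Above Place Fixes)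
open Pool.Agent.K3h56.E2 (Quad Dict)
open Pool.Agent.TeamU (act)
open Pool.Agent.Q5.BR

section quad
variable {F K : Type} [Field F] [NumberField F] [Field K] [NumberField K] [Algebra F K]
  {τ : K ≃ₐ[F] K}

theorem univ_eq (h : Quad F K τ) [Fintype (K ≃ₐ[F] K)] [DecidableEq (K ≃ₐ[F] K)] :
    (Finset.univ : Finset (K ≃ₐ[F] K)) = {1, τ} := by
  ext g
  simp only [Finset.mem_univ, Finset.mem_insert, Finset.mem_singleton, true_iff]
  exact Pool.Agent.K3h50.E2.aut_eq h g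

theorem norm_eq (h : Quad F K τ) (x : K) : algebraMap F K (Algebra.norm F x) = x * τ x := by
  classical
  have hG := Pool.Agent.K3h50.E2.isGalois_of_quad h
  have hfin : FiniteDimensional F K := FiniteDimensional.of_finrank_pos (by rw [h.deg]; norm_num)
  have hne : (1 : K ≃ₐ[F] K) ≠ τ := fun h1 => h.ne h1.symm
  rw [Algebra.norm_eq_prod_automorphisms, univ_eq h, Finset.prod_pair hne]
  rfl

theorem inv_eq (h : Quad F K τ) : τ⁻¹ = τ := by
  rw [inv_eq_iff_mul_eq_one]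
  ext x
  exact Pool.Agent.K3h17.E2.tau_tau h x

theorem nmD_gal [IsGalois F K] [Fintype (K ≃ₐ[F] K)] {v : HeightOneSpectrum (𝓞 F)}
    (hu : Unramified K v) {w : HeightOneSpectrum (𝓞 K)} (hw : w.under (𝓞 F) = v) (c : Dv K) :
    nmD F K c v = ∑ g : K ≃ₐ[F] K, c (act g w) := by
  classical
  rw [Pool.Agent.Q149.AR.nmD_apply]
  rw [← Finset.sum_fiberwise_of_maps_to (t := above K v) (g := fun g : K ≃ₐ[F] K => act g w)
      (fun g _ => mem_above.2 (by rw [Pool.Agent.Q149.AR.act_under, hw]))]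
  refine (Finset.sum_congr rfl fun w' hw' => ?_)
  have h2 : ∀ g ∈ (Finset.univ : Finset (K ≃ₐ[F] K)).filter (fun g => act g w = w'),
      c (act g w) = c w' := fun g hg => by rw [(Finset.mem_filter.1 hg).2]
  rw [Finset.sum_congr rfl h2, Finset.sum_const, nsmul_eq_mul]
  congr 2
  rw [← Pool.Agent.Q149.AR.card_move hu hw (mem_above.1 hw'), Nat.card_eq_fintype_card,
    Fintype.card_subtype]

theorem nmD_eq (h : Quad F K τ) {v : HeightOneSpectrum (𝓞 F)}
    (hu : Unramified K v) {w : HeightOneSpectrum (𝓞 K)} (hw : w.under (𝓞 F) = v) (c : Dv K) :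
    nmD F K c v = c w + c (act τ w) := by
  classical
  have hG := Pool.Agent.K3h50.E2.isGalois_of_quad h
  have hfin : FiniteDimensional F K := FiniteDimensional.of_finrank_pos (by rw [h.deg]; norm_num)
  have hne : (1 : K ≃ₐ[F] K) ≠ τ := fun h1 => h.ne h1.symm
  let _ : Fintype (K ≃ₐ[F] K) := Fintype.ofFinite _
  rw [nmD_gal hu hw, univ_eq h, Finset.sum_pair hne, Pool.Agent.TeamU.act_one]

end quad

section val
variable {K H : Type} [Field K] [NumberField K] [Field H] [NumberField H] [Algebra K H]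

theorem prin_up {P : HeightOneSpectrum (𝓞 H)} (hu : Unramified H (P.under (𝓞 K))) (y : Kˣ) :
    prin (up K H y) P = prin y (P.under (𝓞 K)) := by
  rw [Pool.Agent.Q149.AR.prin_eq_neg_log, Pool.Agent.Q149.AR.prin_eq_neg_log]
  have hov : Pool.Agent.TeamU.Over P (P.under (𝓞 K)) := rfl
  have h1 : P.valuation H ((up K H y : Hˣ) : H) =
      (P.under (𝓞 K)).valuation K (y : K) ^ ((P.under (𝓞 K)).asIdeal.ramificationIdx' P.asIdeal) :=
    Pool.Agent.TeamU.val_over hov (y : K)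
  have he : Ideal.ramificationIdx' (P.under (𝓞 K)).asIdeal P.asIdeal = 1 := by
    refine Ideal.ramificationIdx'_spec ?_ ?_
    · rw [pow_one, Ideal.map_le_iff_le_comap]
      exact le_of_eq rfl
    · exact hu P rfl
  rw [h1, he, pow_one]

end val

section tower
variable {F K H : Type} [Field F] [NumberField F] [Field K] [NumberField K] [Field H]
  [NumberField H] [Algebra F K] [Algebra K H] [Algebra F H] [IsScalarTower F K H]

theorem under_under (P : HeightOneSpectrum (𝓞 H)) :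
    (P.under (𝓞 K)).under (𝓞 F) = P.under (𝓞 F) := by
  apply HeightOneSpectrum.ext
  change (P.asIdeal.comap (algebraMap (𝓞 K) (𝓞 H))).comap (algebraMap (𝓞 F) (𝓞 K)) =
    P.asIdeal.comap (algebraMap (𝓞 F) (𝓞 H))
  rw [Ideal.comap_comap, ← IsScalarTower.algebraMap_eq]

theorem unr_top {P : HeightOneSpectrum (𝓞 H)} (hu : Unramified H (P.under (𝓞 F))) :
    Unramified H (P.under (𝓞 K)) := by
  refine Pool.Agent.Q225.AR.fr.2.2.1 F K H (P.under (𝓞 K)) ?_
  rw [under_under]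
  exact hu

theorem up_up (x : Fˣ) : up K H (up F K x) = up F H x := by
  apply Units.ext
  exact (IsScalarTower.algebraMap_apply F K H (x : F)).symm

end tower

section fr
variable {F H G : Type} [Field F] [NumberField F] [Field H] [NumberField H] [Algebra F H]
  [CommGroup G] [Finite G] [MulSemiringAction G H]

theorem fr_even (D : RubinData F H G) (hG : ∀ g : G, g * g = 1) {e : Dv F}
    (he : ∀ v, v ∉ D.S → Even (e v)) : fr D e = 1 := by
  classical
  unfold fr frH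
  rw [Finsupp.liftAddHom_apply, Finsupp.sum, Finset.sum_eq_zero]
  · rfl
  · intro v _
    by_cases hv : v ∈ D.S
    · rw [if_pos hv]
      rfl
    · rw [if_neg hv]
      obtain ⟨k, hk⟩ := he v hv
      rw [hk]
      change (k + k) • Additive.ofMul (D.σ v) = 0
      rw [← ofMul_zpow, zpow_add, ← mul_zpow, hG, one_zpow]
      rfl

end fr

section parity
variable {F H G K : Type} [Field F] [NumberField F] [Field H] [NumberField H] [Algebra F H]
  [CommGroup G] [Finite G] [MulSemiringAction G H] [Field K] [NumberField K] [Algebra F K]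
  {τ : K ≃ₐ[F] K}

theorem parity (h : Quad F K τ) (D : RubinData F H G) {x : Fˣ} {β : Kˣ} {c : Dv K}
    (hR : RepK D τ x β c) {v : HeightOneSpectrum (𝓞 F)} (hv : v ∉ D.S) (hu : Unramified K v)
    {w : HeightOneSpectrum (𝓞 K)} (hw : w.under (𝓞 F) = v) {a : ℤ} (ha : prin x v = 2 * a) :
    ∃ n : ℤ, nmD F K c v = prin β w - a + 2 * n := by
  have h1 : ¬ Above (D.S : Set (HeightOneSpectrum (𝓞 F))) w := by
    rintro ⟨v', hv', h2⟩
    apply hv
    have : v = v' := by
      rw [← hw]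
      exact HeightOneSpectrum.ext h2
    rw [this]
    exact hv'
  have h2 := hR.2 w h1
  rw [hw, ha, Pool.Agent.Q149.AR.sD_apply, inv_eq h] at h2
  refine ⟨c (act τ w), ?_⟩
  rw [nmD_eq h hu hw]
  linarith

end parity

section alg
variable {F K : Type} [Field F] [NumberField F] [Field K] [NumberField K] [Algebra F K]
  {τ : K ≃ₐ[F] K}

theorem trace_eq (h : Quad F K τ) (x : K) : algebraMap F K (Algebra.trace F K x) = x + τ x := by
  classical
  have hG := Pool.Agent.K3h50.E2.isGalois_of_quad h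
  have hfin : FiniteDimensional F K := FiniteDimensional.of_finrank_pos (by rw [h.deg]; norm_num)
  have hne : (1 : K ≃ₐ[F] K) ≠ τ := fun h1 => h.ne h1.symm
  rw [trace_eq_sum_automorphisms, univ_eq h, Finset.sum_pair hne]
  rfl

end alg

section alg2

variable {F H G K₁ K₂ K₃ : Type} [Field F] [NumberField F] [Field H] [NumberField H]
  [Algebra F H] [CommGroup G] [Finite G] [MulSemiringAction G H] [IsGaloisGroup G F H] [Field K₁]
  [NumberField K₁] [Algebra F K₁] [Algebra K₁ H] [Field K₂] [NumberField K₂] [Algebra F K₂]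
  [Algebra K₂ H] [Field K₃] [NumberField K₃] [Algebra F K₃] [Algebra K₃ H] {τ₁ : K₁ ≃ₐ[F] K₁}
  {τ₂ : K₂ ≃ₐ[F] K₂} {τ₃ : K₃ ≃ₐ[F] K₃} {χ₁ χ₂ : G →* ℂˣ}

theorem pm {u v : ℂˣ} (hu : u * u = 1) (hv : v * v = 1) (h1 : u ≠ 1) (h2 : v ≠ 1) :
    u * v = 1 := by
  have h3 : ∀ w : ℂˣ, w * w = 1 → w ≠ 1 → (w : ℂ) = -1 := by
    intro w hw hne
    have h4 : (w : ℂ) * w = 1 := by
      rw [← Units.val_mul, hw, Units.val_one]
    rcases mul_self_eq_one_iff.1 h4 with h5 | h5
    · exact absurd (Units.ext h5) hne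
    · exact h5
  apply Units.ext
  rw [Units.val_mul, h3 u hu h1, h3 v hv h2, Units.val_one]
  norm_num

theorem nz (d1 : Dict F H G K₁ τ₁ χ₁) (d2 : Dict F H G K₂ τ₂ χ₂)
    (hex : ∃ g : G, (χ₁ * χ₂) g ≠ 1) (x : F) (hsq : ∀ y : F, y ^ 2 ≠ x) (y1 : K₁) (y2 : K₂)
    (h1 : algebraMap F K₁ x = y1 * τ₁ y1) (h2 : algebraMap F K₂ x = y2 * τ₂ y2) :
    algebraMap K₁ H y1 + algebraMap K₂ H y2 ≠ 0 := by
  intro h0
  obtain ⟨g, hg⟩ := hex
  rw [MonoidHom.mul_apply] at hg
  have hg0 : g • algebraMap K₁ H y1 + g • algebraMap K₂ H y2 = 0 := by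
    rw [← smul_add, h0, smul_zero]
  by_cases hχ : χ₁ g = 1
  · have hχ2 : χ₂ g ≠ 1 := fun h3 => hg (by rw [hχ, h3, one_mul])
    rw [d1.one g hχ, d2.neg g hχ2] at hg0
    have h3 : algebraMap K₂ H (τ₂ y2) = algebraMap K₂ H y2 := by linear_combination hg0 - h0
    obtain ⟨z, hz⟩ := Pool.Agent.K3h17.E2.fixed_of_tau d2.quad y2 ((algebraMap K₂ H).injective h3)
    apply hsq z
    apply (algebraMap F K₂).injective
    rw [h2, (algebraMap K₂ H).injective h3, map_pow, hz]
    ring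
  · have hχ2 : χ₂ g = 1 := by
      by_contra h3
      exact hg (pm (d1.sq g) (d2.sq g) hχ h3)
    rw [d1.neg g hχ, d2.one g hχ2] at hg0
    have h3 : algebraMap K₁ H (τ₁ y1) = algebraMap K₁ H y1 := by linear_combination hg0 - h0
    obtain ⟨z, hz⟩ := Pool.Agent.K3h17.E2.fixed_of_tau d1.quad y1 ((algebraMap K₁ H).injective h3)
    apply hsq z
    apply (algebraMap F K₁).injective
    rw [h1, (algebraMap K₁ H).injective h3, map_pow, hz]
    ring

theorem alg (d1 : Dict F H G K₁ τ₁ χ₁) (d2 : Dict F H G K₂ τ₂ χ₂)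
    (d3 : Dict F H G K₃ τ₃ (χ₁ * χ₂)) (x : Fˣ) (β₁ : K₁ˣ) (β₂ : K₂ˣ) (hsq : ∀ y : Fˣ, y ^ 2 ≠ x)
    (hn1 : nu F K₁ β₁ = x) (hn2 : nu F K₂ β₂ = x) :
    ∃ (β₃ : K₃ˣ) (t : Fˣ) (b s s' r : Hˣ), nu F K₃ β₃ = x ∧
      up K₃ H β₃ * up F H t = s * s' ∧ s * r = up K₁ H β₁ * up F H t ∧
      s' * r = b * up F H t ∧ up K₂ H β₂ * b = up F H x := by
  have i1 := d1.tower
  have i2 := d2.tower
  have i3 := d3.tower
  have hsq' : ∀ y : F, y ^ 2 ≠ x := by
    intro y hy
    have hy0 : y ≠ 0 := by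
      rintro rfl
      apply x.ne_zero
      rw [← hy]
      ring
    exact hsq (Units.mk0 y hy0) (Units.ext hy)
  have e1 : algebraMap F K₁ (x : F) = (β₁ : K₁) * τ₁ β₁ := by
    rw [← norm_eq d1.quad, ← hn1]
    rfl
  have e2 : algebraMap F K₂ (x : F) = (β₂ : K₂) * τ₂ β₂ := by
    rw [← norm_eq d2.quad, ← hn2]
    rfl
  have tt1 := Pool.Agent.K3h17.E2.tau_tau d1.quad (β₁ : K₁)
  have tt2 := Pool.Agent.K3h17.E2.tau_tau d2.quad (β₂ : K₂)
  have e1' : algebraMap F K₁ (x : F) = (τ₁ β₁ : K₁) * τ₁ (τ₁ β₁) := by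
    rw [tt1, e1, mul_comm]
  have e2' : algebraMap F K₂ (x : F) = (τ₂ β₂ : K₂) * τ₂ (τ₂ β₂) := by
    rw [tt2, e2, mul_comm]
  set B1 : H := algebraMap K₁ H β₁ with hB1
  set B1' : H := algebraMap K₁ H (τ₁ β₁) with hB1'
  set B2 : H := algebraMap K₂ H β₂ with hB2
  set B2' : H := algebraMap K₂ H (τ₂ β₂) with hB2'
  set t : F := Algebra.trace F K₁ β₁ + Algebra.trace F K₂ β₂ with ht
  have hX1 : B1 * B1' = algebraMap F H x := by
    rw [hB1, hB1', ← map_mul, ← e1, ← IsScalarTower.algebraMap_apply]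
  have hX2 : B2 * B2' = algebraMap F H x := by
    rw [hB2, hB2', ← map_mul, ← e2, ← IsScalarTower.algebraMap_apply]
  have hT : algebraMap F H t = B1 + B1' + B2 + B2' := by
    rw [ht, map_add, IsScalarTower.algebraMap_apply F K₁ H, IsScalarTower.algebraMap_apply F K₂ H,
      trace_eq d1.quad, trace_eq d2.quad, map_add, map_add]
    ring
  have n1 : B1 + B2 ≠ 0 := nz d1 d2 d3.ex x hsq' _ _ e1 e2
  have n2 : B1' + B2' ≠ 0 := nz d1 d2 d3.ex x hsq' _ _ e1' e2'
  have n3 : B1 + B2' ≠ 0 := nz d1 d2 d3.ex x hsq' _ _ e1 e2'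
  have n4 : B1' + B2 ≠ 0 := nz d1 d2 d3.ex x hsq' _ _ e1' e2
  have I1 : (B1 + B2) * (B1 + B2') = B1 * algebraMap F H t := by
    rw [hT]
    linear_combination hX2 - hX1
  have I3 : (B1' + B2') * (B1' + B2) = B1' * algebraMap F H t := by
    rw [hT]
    linear_combination hX2 - hX1
  have I4 : (B1' + B2') * (B1 + B2') = B2' * algebraMap F H t := by
    rw [hT]
    linear_combination hX1 - hX2
  have ht0 : t ≠ 0 := by
    intro h0
    rw [h0, map_zero, mul_zero] at I1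
    exact (mul_ne_zero n1 n3) I1
  have hTi : ∀ g : G, g • algebraMap F H t⁻¹ = algebraMap F H t⁻¹ := fun g => smul_algebraMap g _
  have hTt : algebraMap F H t * algebraMap F H t⁻¹ = 1 := by
    rw [← map_mul, mul_inv_cancel₀ ht0, map_one]
  have g1 : ∀ g : G, χ₁ g = 1 → g • B1 = B1 ∧ g • B1' = B1' := fun g hg =>
    ⟨d1.one g hg _, d1.one g hg _⟩
  have g1' : ∀ g : G, χ₁ g ≠ 1 → g • B1 = B1' ∧ g • B1' = B1 := fun g hg =>
    ⟨d1.neg g hg _, by rw [hB1', d1.neg g hg, tt1]⟩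
  have g2 : ∀ g : G, χ₂ g = 1 → g • B2 = B2 ∧ g • B2' = B2' := fun g hg =>
    ⟨d2.one g hg _, d2.one g hg _⟩
  have g2' : ∀ g : G, χ₂ g ≠ 1 → g • B2 = B2' ∧ g • B2' = B2 := fun g hg =>
    ⟨d2.neg g hg _, by rw [hB2', d2.neg g hg, tt2]⟩
  obtain ⟨b3, hb3⟩ := d3.fix ((B1 + B2) * (B1' + B2') * algebraMap F H t⁻¹) (by
    intro g hg
    rw [MonoidHom.mul_apply] at hg
    rw [smul_mul', smul_mul', smul_add, smul_add, hTi]
    by_cases hχ : χ₁ g = 1
    · have hχ2 : χ₂ g = 1 := by rwa [hχ, one_mul] at hg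
      rw [(g1 g hχ).1, (g1 g hχ).2, (g2 g hχ2).1, (g2 g hχ2).2]
    · have hχ2 : χ₂ g ≠ 1 := fun h3 => hχ (by rwa [h3, mul_one] at hg)
      rw [(g1' g hχ).1, (g1' g hχ).2, (g2' g hχ2).1, (g2' g hχ2).2]
      ring)
  have hti0 : algebraMap F H t⁻¹ ≠ 0 := by
    intro h0
    rw [h0, mul_zero] at hTt
    exact zero_ne_one hTt
  have hb30 : b3 ≠ 0 := by
    rintro rfl
    rw [map_zero] at hb3
    exact mul_ne_zero (mul_ne_zero n1 n2) hti0 hb3.symm
  have hB2'0 : B2' ≠ 0 := by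
    intro h0
    rw [h0, mul_zero] at hX2
    exact x.ne_zero ((algebraMap F H).injective (by rw [← hX2, map_zero]))
  have hnorm : algebraMap K₃ H b3 * algebraMap K₃ H (τ₃ b3) = algebraMap F H x := by
    obtain ⟨g, hg⟩ := d3.ex
    rw [← d3.neg g hg b3, hb3, smul_mul', smul_mul', smul_add, smul_add, hTi]
    rw [MonoidHom.mul_apply] at hg
    have key : (B1 + B2) * (B1' + B2') * algebraMap F H t⁻¹ *
        ((B1 + B2') * (B1' + B2) * algebraMap F H t⁻¹) = algebraMap F H x := by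
      have : (B1 + B2) * (B1' + B2') * algebraMap F H t⁻¹ *
        ((B1 + B2') * (B1' + B2) * algebraMap F H t⁻¹) =
        ((B1 + B2) * (B1 + B2')) * ((B1' + B2') * (B1' + B2)) *
          (algebraMap F H t⁻¹ * algebraMap F H t⁻¹) := by ring
      rw [this, I1, I3]
      have : B1 * algebraMap F H t * (B1' * algebraMap F H t) *
          (algebraMap F H t⁻¹ * algebraMap F H t⁻¹) = (B1 * B1') *
          ((algebraMap F H t * algebraMap F H t⁻¹) * (algebraMap F H t * algebraMap F H t⁻¹)) := by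
        ring
      rw [this, hTt, hX1, mul_one, mul_one]
    by_cases hχ : χ₁ g = 1
    · have hχ2 : χ₂ g ≠ 1 := fun h3 => hg (by rw [hχ, h3, one_mul])
      rw [(g1 g hχ).1, (g1 g hχ).2, (g2' g hχ2).1, (g2' g hχ2).2]
      exact key
    · have hχ2 : χ₂ g = 1 := by
        by_contra h3
        exact hg (pm (d1.sq g) (d2.sq g) hχ h3)
      rw [(g1' g hχ).1, (g1' g hχ).2, (g2 g hχ2).1, (g2 g hχ2).2]
      rw [← key]
      ring
  refine ⟨Units.mk0 b3 hb30, Units.mk0 t ht0, Units.mk0 B2' hB2'0, Units.mk0 _ n1, Units.mk0 _ n2,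
    Units.mk0 _ n3, ?_, ?_, ?_, ?_, ?_⟩
  · apply Units.ext
    change Algebra.norm F b3 = x
    apply (algebraMap F H).injective
    rw [IsScalarTower.algebraMap_apply F K₃ H, norm_eq d3.quad, map_mul]
    exact hnorm
  · apply Units.ext
    change algebraMap K₃ H b3 * algebraMap F H t = (B1 + B2) * (B1' + B2')
    rw [hb3, mul_assoc, mul_comm (algebraMap F H t⁻¹), hTt, mul_one]
  · apply Units.ext
    exact I1
  · apply Units.ext
    exact I4
  · apply Units.ext
    exact hX2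

end alg2

/-- **CADD** -/
theorem cadd (h1 : S_PF) (h2 : S_CEX) : S_CADD := by
  intro F H G K₁ K₂ K₃ _ _ _ _ _ _ _ _ _ _ _ _ _ _ _ _ _ _ _ _ _ τ₁ τ₂ τ₃ χ₁ χ₂ d1 d2 d3 D hG hL
    x a β₁ β₂ c₁ c₂ hsq ha hR1 hR2
  have i1 := d1.tower
  have i2 := d2.tower
  have i3 := d3.tower
  obtain ⟨β₃, t, b, s, s', r, hn, f1, f2, f3, f4⟩ := alg d1 d2 d3 x β₁ β₂ hsq hR1.1 hR2.1
  obtain ⟨c₃, hR3⟩ := h2 F H G K₃ τ₃ (χ₁ * χ₂) d3 D x β₃ hn (fun v hv => ⟨a v, by
    rw [ha v hv]; ring⟩)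
  refine ⟨β₃, c₃, hR3, ?_⟩
  intro ψ hψ
  have key : ∀ v, v ∉ D.S → Even ((nmD F K₁ c₁ + nmD F K₂ c₂ + nmD F K₃ c₃ + a + prin t) v) := by
    intro v hv
    have hu : Unramified H v := Pool.Agent.H509.Rec.unr_of_squarefree (D.unramified v hv)
    obtain ⟨P, hP⟩ := Pool.Agent.Q149.AR.above_nonempty (E := H) v
    have hu' : Unramified H (P.under (𝓞 F)) := by rwa [hP]
    have u1 : Unramified K₁ v := Pool.Agent.Q92.AR.Unramified.sub hu
    have u2 : Unramified K₂ v := Pool.Agent.Q92.AR.Unramified.sub hu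
    have u3 : Unramified K₃ v := Pool.Agent.Q92.AR.Unramified.sub hu
    obtain ⟨n1, hn1⟩ := parity d1.quad D hR1 hv u1 (w := P.under (𝓞 K₁))
      (by rw [under_under, hP]) (ha v hv)
    obtain ⟨n2, hn2⟩ := parity d2.quad D hR2 hv u2 (w := P.under (𝓞 K₂))
      (by rw [under_under, hP]) (ha v hv)
    obtain ⟨n3, hn3⟩ := parity d3.quad D hR3 hv u3 (w := P.under (𝓞 K₃))
      (by rw [under_under, hP]) (ha v hv)
    rw [← prin_up (unr_top (F := F) hu')] at hn1 hn2 hn3
    have q1 := DFunLike.congr_fun (congrArg prin f1) P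
    have q2 := DFunLike.congr_fun (congrArg prin f2) P
    have q3 := DFunLike.congr_fun (congrArg prin f3) P
    have q4 := DFunLike.congr_fun (congrArg prin f4) P
    have p1 : prin (up F H t) P = prin t v := by rw [prin_up hu', hP]
    have p2 : prin (up F H x) P = 2 * a v := by rw [prin_up hu', hP, ha v hv]
    rw [prin_mul, prin_mul, Finsupp.add_apply, Finsupp.add_apply, p1] at q1 q2 q3
    rw [prin_mul, Finsupp.add_apply, p2] at q4
    simp only [Finsupp.add_apply]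
    rw [hn1, hn2, hn3]
    refine ⟨prin s P + n1 + n2 + n3, ?_⟩
    linarith
  have hone := fr_even D hG key
  rw [fr_add, fr_add, fr_add, fr_add] at hone
  have hψ1 := congrArg ψ hone
  rw [map_mul, map_mul, map_mul, map_mul, h1 F H G D hL ψ hψ t, mul_one, map_one] at hψ1
  have hsq1 : ∀ g : G, ψ g * ψ g = 1 := fun g => by rw [← map_mul, hG, map_one]
  set A := ψ (fr D (nmD F K₁ c₁)) with hA
  set B := ψ (fr D (nmD F K₂ c₂)) with hB
  set C := ψ (fr D (nmD F K₃ c₃)) with hC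
  set E := ψ (fr D a) with hE
  have hC2 : C * C = 1 := hsq1 _
  calc C = (A * B * C * E) * C := by rw [hψ1, one_mul]
    _ = A * B * E * (C * C) := by ac_rfl
    _ = A * B * E := by rw [hC2, mul_one]

end Pool.Agent.H297.BT
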